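import Pool.Agent.helper34.MO.SpecC

/-! Project MO (MP_0631c5_co), row SEC: the sector bound. -/

set_option autoImplicit false
set_option linter.unusedSimpArgs false

open Complex Finset

namespace Pool.Agent.MO

/-- the three claims for one branch -/
def SEC_P (t : ℝ) (d : BD) : Prop := ∀ ya yb : ℂ,
  |((starRingEnd ℂ) ya * (d.al * ya + d.mu * yb)).im + ((starRingEnd ℂ) yb * (d.mu * ya + d.be * yb)).im|
    ≤ 2 / t * ((starRingEnd ℂ) ya * (d.al * ya + d.mu * yb) + (starRingEnd ℂ) yb * (d.mu * ya + d.be * yb)).re ∧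
  |((starRingEnd ℂ) ya * (d.al * ya + d.mu * yb)).im - ((starRingEnd ℂ) yb * (d.mu * ya + d.be * yb)).im|
    ≤ 2 / t * ((starRingEnd ℂ) ya * (d.al * ya + d.mu * yb) + (starRingEnd ℂ) yb * (d.mu * ya + d.be * yb)).re
      + ‖yb‖ ^ 2 ∧
  |((starRingEnd ℂ) ya * (d.al * ya + d.mu * yb)).im - ((starRingEnd ℂ) yb * (d.mu * ya + d.be * yb)).im|
    ≤ 2 / t * ((starRingEnd ℂ) ya * (d.al * ya + d.mu * yb) + (starRingEnd ℂ) yb * (d.mu * ya + d.be * yb)).re
      + ‖ya‖ ^ 2

theorem SEC_nsq (z : ℂ) : ‖z‖ ^ 2 = z.re ^ 2 + z.im ^ 2 := by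
  rw [Complex.sq_norm, Complex.normSq_apply]
  ring

theorem SEC_node (t : ℝ) (ht : 0 < t) (L R : BD) (hL : SEC_P t L) (hR : SEC_P t R) :
    SEC_P t (comb t L R) := by
  have hLb : 0 ≤ L.be.re := by
    have h := (hL 0 1).1
    simp only [map_zero, zero_mul, map_one, one_mul, mul_zero, zero_add, mul_one, Complex.zero_im] at h
    have h2 : 0 ≤ 2 / t * L.be.re := le_trans (abs_nonneg _) h
    have h3 : 0 < 2 / t := by positivity
    exact nonneg_of_mul_nonneg_right h2 h3
  have hRa : 0 ≤ R.al.re := by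
    have h := (hR 1 0).1
    simp only [map_zero, zero_mul, map_one, one_mul, mul_zero, add_zero, mul_one, Complex.zero_im] at h
    have h2 : 0 ≤ 2 / t * R.al.re := le_trans (abs_nonneg _) h
    have h3 : 0 < 2 / t := by positivity
    exact nonneg_of_mul_nonneg_right h2 h3
  have hPre : t ≤ (pv t L R).re := by
    unfold pv
    simp only [Complex.add_re, Complex.ofReal_re]
    linarith
  have hP : pv t L R ≠ 0 := by
    intro h
    rw [h] at hPre
    simp only [Complex.zero_re] at hPre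
    linarith
  intro ya yb
  obtain ⟨yc, hyc⟩ : ∃ yc : ℂ, yc = -((L.mu - I) * ya + (R.mu - I) * yb) / pv t L R := ⟨_, rfl⟩
  have hPy : pv t L R * yc = -((L.mu - I) * ya + (R.mu - I) * yb) := by
    rw [hyc]
    field_simp
  have h1 : (comb t L R).al * ya + (comb t L R).mu * yb = (L.al * ya + L.mu * yc) - I * yc := by
    have e : (L.al * ya + L.mu * yc) - I * yc = L.al * ya + (L.mu - I) * yc := by ring
    rw [e, hyc]
    simp only [comb]
    field_simp
    ring
  have h2 : (comb t L R).mu * ya + (comb t L R).be * yb = (R.mu * yc + R.be * yb) - I * yc := by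
    have e : (R.mu * yc + R.be * yb) - I * yc = R.be * yb + (R.mu - I) * yc := by ring
    rw [e, hyc]
    simp only [comb]
    field_simp
    ring
  have h3 : R.al * yc + R.mu * yb = I * ya + I * yb - (t : ℂ) * yc - (L.mu * ya + L.be * yc) := by
    unfold pv at hPy
    linear_combination hPy
  rw [h1, h2]
  obtain ⟨l1, l2, l3⟩ := hL ya yc
  obtain ⟨r1, r2, r3⟩ := hR yc yb
  rw [h3] at r1 r2 r3
  generalize L.al * ya + L.mu * yc = A at *
  generalize L.mu * ya + L.be * yc = C at *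
  generalize R.mu * yc + R.be * yb = B at *
  have hRe : ((starRingEnd ℂ) ya * (A - I * yc) + (starRingEnd ℂ) yb * (B - I * yc)).re =
      ((starRingEnd ℂ) ya * A + (starRingEnd ℂ) yc * C).re +
      ((starRingEnd ℂ) yc * (I * ya + I * yb - (t : ℂ) * yc - C) + (starRingEnd ℂ) yb * B).re +
      t * ‖yc‖ ^ 2 := by
    rw [SEC_nsq]
    simp only [Complex.add_re, Complex.mul_re, Complex.sub_re, Complex.sub_im, Complex.mul_im, Complex.add_im,
      Complex.conj_re, Complex.conj_im, Complex.I_re, Complex.I_im, Complex.ofReal_re, Complex.ofReal_im]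
    ring
  have hQa : ((starRingEnd ℂ) ya * (A - I * yc)).im = ((starRingEnd ℂ) ya * A).im -
      (ya.re * yc.re + ya.im * yc.im) := by
    simp only [Complex.add_re, Complex.mul_re, Complex.sub_re, Complex.sub_im, Complex.mul_im, Complex.add_im,
      Complex.conj_re, Complex.conj_im, Complex.I_re, Complex.I_im, Complex.ofReal_re, Complex.ofReal_im]
    ring
  have hQb : ((starRingEnd ℂ) yb * (B - I * yc)).im = ((starRingEnd ℂ) yb * B).im -
      (yb.re * yc.re + yb.im * yc.im) := by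
    simp only [Complex.add_re, Complex.mul_re, Complex.sub_re, Complex.sub_im, Complex.mul_im, Complex.add_im,
      Complex.conj_re, Complex.conj_im, Complex.I_re, Complex.I_im, Complex.ofReal_re, Complex.ofReal_im]
    ring
  have hQc : ((starRingEnd ℂ) yc * C).im + ((starRingEnd ℂ) yc * (I * ya + I * yb - (t : ℂ) * yc - C)).im =
      (ya.re * yc.re + ya.im * yc.im) + (yb.re * yc.re + yb.im * yc.im) := by
    simp only [Complex.add_re, Complex.mul_re, Complex.sub_re, Complex.sub_im, Complex.mul_im, Complex.add_im,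
      Complex.conj_re, Complex.conj_im, Complex.I_re, Complex.I_im, Complex.ofReal_re, Complex.ofReal_im]
    ring
  rw [hRe, hQa, hQb]
  have hac := SEC_nsq ya
  have hbc := SEC_nsq yb
  have hcc := SEC_nsq yc
  have ea : |ya.re * yc.re + ya.im * yc.im| * 2 ≤ ‖ya‖ ^ 2 + ‖yc‖ ^ 2 := by
    rw [hac, hcc, ← abs_two, ← abs_mul, abs_le]
    constructor <;> nlinarith [sq_nonneg (ya.re + yc.re), sq_nonneg (ya.im + yc.im),
      sq_nonneg (ya.re - yc.re), sq_nonneg (ya.im - yc.im)]
  have eb : |yb.re * yc.re + yb.im * yc.im| * 2 ≤ ‖yb‖ ^ 2 + ‖yc‖ ^ 2 := by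
    rw [hbc, hcc, ← abs_two, ← abs_mul, abs_le]
    constructor <;> nlinarith [sq_nonneg (yb.re + yc.re), sq_nonneg (yb.im + yc.im),
      sq_nonneg (yb.re - yc.re), sq_nonneg (yb.im - yc.im)]
  have e2 : 2 / t * (t * ‖yc‖ ^ 2) = 2 * ‖yc‖ ^ 2 := by
    field_simp
  rw [abs_le] at l1 l2 l3 r1 r2 r3
  have ea1 := (abs_le.1 (le_refl |ya.re * yc.re + ya.im * yc.im|))
  have eb1 := (abs_le.1 (le_refl |yb.re * yc.re + yb.im * yc.im|))
  simp only [mul_add, e2]
  refine ⟨?_, ?_, ?_⟩ <;> rw [abs_le] <;> constructor <;> linarith [l1.1, l1.2, l2.1, l2.2, l3.1, l3.2,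
    r1.1, r1.2, r2.1, r2.2, r3.1, r3.2]

/-- row SEC -/
theorem SEC : SEC_stmt := by
  have h : ∀ (t : ℝ), 0 < t → ∀ τ : Tr, SEC_P t (bd (uni t τ)) := by
    intro t ht τ
    induction τ with
    | e =>
      intro ya yb
      simp [uni, bd]
    | nd l r ihl ihr =>
      exact SEC_node t ht _ _ ihl ihr
  intro t τ ya yb ht
  exact h t ht τ ya yb

end Pool.Agent.MO
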